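import Pool.Agent.H33.FQ.Pl

/-!
# FQ module EGD: `e` is regular at the good places
-/

set_option autoImplicit false

namespace Pool.Agent.H33.FQ.EGD

open SC Pool.Agent.H27.LV Pool.Agent.H30.FQ Pool.Agent.H33.FQ

section

variable {k K : Type} [Field k] [CharZero k] [Field K] [Algebra k K] {v : DV k K}

lemma gec (v : DV k K) (r : ℚ) : ge v 0 (r : K) := by
  have hK : CharZero K := charZero_of_injective_algebraMap (algebraMap k K).injective
  have h : algebraMap k K (r : k) = (r : K) := map_ratCast (algebraMap k K) r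
  rw [← h]
  exact ge_const v _

lemma ge.zmul {x y : K} (hx : ge v 0 x) (hy : ge v 0 y) : ge v 0 (x * y) := by
  simpa using hx.mul hy

lemma ge.zpow {x : K} (hx : ge v 0 x) : ge v 0 (x ^ 2) := by
  rw [pow_two]
  exact ge.zmul hx hx

lemma ge.cmul (r : ℚ) {x : K} (hx : ge v 0 x) : ge v 0 ((r : K) * x) := ge.zmul (gec v r) hx

/-- if `x = y * z` with `ord y = 0`, `y ≠ 0` and `x` regular then `z` is regular -/
lemma ge.div_unit {x y : K} (hx : ge v 0 x) (hy : y ≠ 0) (h0 : v.ord y = 0) : ge v 0 (x / y) := by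
  rcases hx with h | h
  · left; rw [h, zero_div]
  · by_cases hx0 : x = 0
    · left; rw [hx0, zero_div]
    · right
      rw [v.ord_div hx0 hy, h0]
      omega

/-- the expression `e` in terms of `p₀ = p + μ`, `q₀ = q + μ`, `μ = (1 - l) / 8` -/
def ex (p0 q0 a b l : K) : K :=
  7 * (a + b) - 12 * ((p0 - (1 - l) / 8) + (q0 - (1 - l) / 8)) ^ 2 -
    9 * ((p0 - (1 - l) / 8) - (q0 - (1 - l) / 8)) ^ 2

lemma ex_swap (p0 q0 a b l : K) : ex p0 q0 a b l = ex q0 p0 b a l := by
  unfold ex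
  ring

/-- the case of a simple pole of `p₀` -/
lemma core (D : Derivation k K K) (hD : ∀ z : K, ge v 0 z → ge v 0 (D z)) {p0 q0 a b l : K}
    (hp0 : p0 ≠ 0) (ha0 : a ≠ 0) (op : v.ord p0 = -1) (oa : v.ord a = -2) (hq : ge v 0 q0)
    (hb : ge v 0 b) (hl : ge v 0 l) (hDp : D p0 = a + p0 - 4 * p0 ^ 2)
    (hDa : D a = a * (2 * l + 2 * q0 - 2 * p0)) : ge v 0 (ex p0 q0 a b l) := by
  have hK : CharZero K := charZero_of_injective_algebraMap (algebraMap k K).injective
  obtain ⟨τ, hτ⟩ : ∃ τ, τ = p0⁻¹ := ⟨_, rfl⟩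
  have hτ0 : τ ≠ 0 := by rw [hτ]; exact inv_ne_zero hp0
  have hpτ : p0 = τ⁻¹ := by rw [hτ, inv_inv]
  have oτ : v.ord τ = 1 := by
    have h1 : v.ord (p0 * τ) = v.ord p0 + v.ord τ := v.ord_mul' hp0 hτ0
    rw [hτ, mul_inv_cancel₀ hp0, v.ord_one, ← hτ] at h1
    omega
  obtain ⟨A, hA⟩ : ∃ A, A = a * τ ^ 2 := ⟨_, rfl⟩
  have hA0 : A ≠ 0 := by rw [hA]; exact mul_ne_zero ha0 (pow_ne_zero _ hτ0)
  have oA : v.ord A = 0 := by
    rw [hA, v.ord_mul' ha0 (pow_ne_zero _ hτ0), v.ord_pow, oτ, oa]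
    norm_num
  have hDτ : D τ = 4 - τ - A := by
    have h1 : D p0 = D (τ⁻¹) := by rw [hpτ]
    have h2 : D (τ⁻¹) = -(τ ^ 2)⁻¹ * D τ := by
      rw [D.leibniz_inv, smul_eq_mul]
      ring
    have h3 : D τ = -(τ ^ 2) * D p0 := by
      rw [h1, h2]
      field_simp
    rw [h3, hDp, hA, hpτ]
    field_simp
    ring
  have hDA : D A = A * (2 * l + 2 * q0 - 2 + (6 - 2 * A) / τ) := by
    rw [hA, D.leibniz, D.leibniz_pow, smul_eq_mul, smul_eq_mul, hDa, hDτ, hpτ, hA]
    simp only [smul_eq_mul, nsmul_eq_mul]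
    field_simp
    ring
  have gA : ge v 0 A := Or.inr (by omega)
  have gDA := hD A gA
  have gL : ge v 0 (2 * l + 2 * q0 - 2) := by
    have h1 := (ge.cmul 2 hl).add (ge.cmul 2 hq)
    have h2 := h1.sub (gec v 2)
    simpa using h2
  obtain ⟨L, hL⟩ : ∃ L, L = 2 * l + 2 * q0 - 2 := ⟨_, rfl⟩
  rw [← hL] at gL hDA
  obtain ⟨A1, hA1⟩ : ∃ A1, A1 = (A - 3) / τ := ⟨_, rfl⟩
  have gA1 : ge v 0 A1 := by
    have h1 : A1 = ((-1 / 2 : ℚ) : K) * (D A / A - L) := by
      rw [hDA, hA1]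
      push_cast
      field_simp
      ring
    rw [h1]
    exact ge.cmul _ ((ge.div_unit gDA hA0 oA).sub gL)
  have hAA1 : A = 3 + A1 * τ := by
    rw [hA1]
    field_simp
    ring
  have gDA1 := hD A1 gA1
  obtain ⟨R, hR⟩ : ∃ R, R = A1 * (L - 2 * A1) - D A1 + A1 + A1 ^ 2 := ⟨_, rfl⟩
  have gR : ge v 0 R := by
    rw [hR]
    have h1 := (((ge.zmul gA1 (gL.sub (ge.cmul 2 gA1))).sub gDA1).add gA1).add (ge.zpow gA1)
    simpa using h1
  have hkey : 7 * A1 - 3 * L = τ * R := by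
    have h1 : D A = A1 * D τ + τ * D A1 := by
      rw [hAA1, map_add, D.leibniz, smul_eq_mul, smul_eq_mul]
      have h3 : D (3 : K) = 0 := by
        have := D.map_natCast 3
        simpa using this
      rw [h3, zero_add]
    have h2 : D A = A * (L - 2 * A1) := by
      rw [hDA, hA1]
      congr 1
      field_simp
      ring
    rw [hDτ] at h1
    rw [hR]
    rw [h2, hAA1] at h1
    linear_combination -h1
  have hex : ex p0 q0 a b l = R + 7 * b - 21 * (q0 - (1 - l) / 8) ^ 2 - 21 * ((1 - l) / 8) ^ 2 +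
      6 * (((1 - l) / 8) * (q0 - (1 - l) / 8)) := by
    have ha' : a = (3 + A1 * τ) / τ ^ 2 := by
      rw [← hAA1, hA]
      field_simp
    have h3 : 7 * A1 = 3 * (2 * l + 2 * q0 - 2) + τ * R := by
      rw [← hL]
      linear_combination hkey
    unfold ex
    rw [ha', hpτ]
    field_simp
    linear_combination (64 * τ) * h3
  rw [hex]
  have gmu : ge v 0 ((1 - l) / 8 : K) := by
    have h1 := ge.cmul (1 / 8) ((ge_one v).sub hl)
    have h2 : ((1 / 8 : ℚ) : K) * (1 - l) = (1 - l) / 8 := by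
      push_cast
      ring
    rwa [h2] at h1
  have h7 := ge.cmul 7 hb
  have h21 := ge.cmul 21 (ge.zpow (hq.sub gmu))
  have h21' := ge.cmul 21 (ge.zpow gmu)
  have h6 := ge.cmul 6 (ge.zmul gmu (hq.sub gmu))
  have := (((gR.add h7).sub h21).sub h21').add h6
  simpa using this

lemma Dp {D : Derivation k K K} {X : K} (hX : X ≠ 0) :
    D (D X / (4 * X)) = gg D X / (4 * X) + D X / (4 * X) - 4 * (D X / (4 * X)) ^ 2 := by
  have hK : CharZero K := charZero_of_injective_algebraMap (algebraMap k K).injective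
  have h4 : D (4 : K) = 0 := by
    have := D.map_natCast 4
    simpa using this
  rw [D.leibniz_div, D.leibniz, h4]
  unfold gg
  simp only [smul_eq_mul]
  field_simp
  ring

lemma Da {D : Derivation k K K} {X Y : K} (hX : X ≠ 0) (hY : Y ≠ 0) (hg : gg D X ≠ 0) :
    D (gg D X / (4 * X)) = gg D X / (4 * X) *
      (2 * ll D X Y + 2 * (D Y / (4 * Y)) - 2 * (D X / (4 * X))) := by
  have hK : CharZero K := charZero_of_injective_algebraMap (algebraMap k K).injective
  have h4 : D (4 : K) = 0 := by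
    have := D.map_natCast 4
    simpa using this
  have h16 : D (16 : K) = 0 := by
    have := D.map_natCast 16
    simpa using this
  obtain ⟨G, hG⟩ : ∃ G, G = gg D X := ⟨_, rfl⟩
  unfold ll QQ
  rw [← hG] at hg ⊢
  rw [D.leibniz_div, D.leibniz_div, D.leibniz_pow, D.leibniz, D.leibniz, D.leibniz, h4, h16]
  simp only [smul_eq_mul, nsmul_eq_mul]
  field_simp
  ring

/-- the main case: one of the two functions has a zero of order four -/
lemma main_case {D : Derivation k K K} {X Y : K} (h : Loc v D 0 0 X Y)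
    (hQ0 : v.ord (QQ D X Y) = 0) (hX : v.ord X = 4) (hY : v.ord Y = 0)
    (hD : ∀ z : K, ge v 0 z → ge v 0 (D z)) (hl : ge v 0 (ll D X Y)) :
    ge v 0 (ex (D X / (4 * X)) (D Y / (4 * Y)) (gg D X / (4 * X)) (-(gg D X) / (4 * Y))
      (ll D X Y)) := by
  have hK : CharZero K := charZero_of_injective_algebraMap (algebraMap k K).injective
  have h4 : (4 : K) ≠ 0 := by norm_num
  have o4 : v.ord (4 : K) = 0 := by
    rw [← map_ofNat (algebraMap k K) 4, v.ord_base]
  obtain ⟨hDX0, hDX⟩ := h.dex X (by omega)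
  have h4X : (4 * X : K) ≠ 0 := mul_ne_zero h4 h.x0
  have h4Y : (4 * Y : K) ≠ 0 := mul_ne_zero h4 h.y0
  have o4X : v.ord (4 * X) = 4 := by rw [v.ord_mul' h4 h.x0, o4, hX]; norm_num
  have o4Y : v.ord (4 * Y) = 0 := by rw [v.ord_mul' h4 h.y0, o4, hY]; norm_num
  obtain ⟨_, hQ⟩ := ordQ (v := v) h.x0 h.y0 h.g0
  refine core D hD (div_ne_zero hDX0 h4X) (div_ne_zero h.g0 h4X) ?_ ?_ ?_ ?_ hl
    (Dp h.x0) (Da h.x0 h.y0 h.g0)
  · rw [v.ord_div hDX0 h4X, hDX, o4X, hX]
    norm_num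
  · rw [v.ord_div h.g0 h4X, o4X]
    omega
  · exact ge.div_unit (hD Y (Or.inr (by omega))) h4Y o4Y
  · refine ge.div_unit (ge.neg (Or.inr ?_)) h4Y o4Y
    omega

/-- `Q` and `ℓ` are symmetric in `X` and `Y` -/
lemma QQ_swap {D : Derivation k K K} {X Y : K} (h : D X + D Y = X + Y - 1) :
    QQ D Y X = QQ D X Y ∧ ll D Y X = ll D X Y ∧ gg D Y = -(gg D X) := by
  obtain ⟨e1, _⟩ := gg_eq h
  have h1 : gg D Y = -(gg D X) := by
    show D (D Y) - D Y = _
    rw [e1]
    ring
  have h2 : QQ D Y X = QQ D X Y := by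
    unfold QQ
    rw [h1]
    congr 1
    · ring
    · ring
  refine ⟨h2, ?_, h1⟩
  unfold ll
  rw [h2]

theorem t_egd (hq : T_QBD) : T_EGD := by
  intro k K _ _ _ _ v D X Y h hQ0
  have hK : CharZero K := charZero_of_injective_algebraMap (algebraMap k K).injective
  have h4 : (4 : K) ≠ 0 := by norm_num
  have o4 : v.ord (4 : K) = 0 := by
    rw [← map_ofNat (algebraMap k K) 4, v.ord_base]
  have hD : ∀ z : K, ge v 0 z → ge v 0 (D z) := fun z hz => by
    simpa using dge00 h.dord hz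
  obtain ⟨hQne, hQ⟩ := ordQ (v := v) h.x0 h.y0 h.g0
  have hl : ge v 0 (ll D X Y) := by
    unfold ll
    refine ge.div_unit (hD _ (Or.inr (by omega))) (mul_ne_zero h4 hQne) ?_
    rw [v.ord_mul' h4 hQne, o4, hQ0]
    norm_num
  refine ⟨hl, ?_⟩
  have hee : ee D X Y = ex (D X / (4 * X)) (D Y / (4 * Y)) (gg D X / (4 * X))
      (-(gg D X) / (4 * Y)) (ll D X Y) := rfl
  obtain ⟨_, h2, _⟩ := hq k K v D 0 0 X Y h (by rw [hQ0]; norm_num)
  obtain ⟨hX, hY, hXY⟩ := h2 rfl
  rw [hee]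
  rcases hX with hX | hX
  · rcases hY with hY | hY
    · -- both are units
      have h4X : (4 * X : K) ≠ 0 := mul_ne_zero h4 h.x0
      have h4Y : (4 * Y : K) ≠ 0 := mul_ne_zero h4 h.y0
      have o4X : v.ord (4 * X) = 0 := by rw [v.ord_mul' h4 h.x0, o4, hX]; norm_num
      have o4Y : v.ord (4 * Y) = 0 := by rw [v.ord_mul' h4 h.y0, o4, hY]; norm_num
      have gX := hD X (Or.inr (by omega))
      have gY := hD Y (Or.inr (by omega))
      have gG : ge v 0 (gg D X) := by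
        unfold gg
        exact (hD _ gX).sub gX
      have g1 : ge v 0 (D X / (4 * X)) := ge.div_unit gX h4X o4X
      have g2 : ge v 0 (D Y / (4 * Y)) := ge.div_unit gY h4Y o4Y
      have g3 : ge v 0 (gg D X / (4 * X)) := ge.div_unit gG h4X o4X
      have g4 : ge v 0 (-(gg D X) / (4 * Y)) := ge.div_unit gG.neg h4Y o4Y
      have gmu : ge v 0 ((1 - ll D X Y) / 8 : K) := by
        have h1 := ge.cmul (1 / 8) ((ge_one v).sub hl)
        have h2 : ((1 / 8 : ℚ) : K) * (1 - ll D X Y) = (1 - ll D X Y) / 8 := by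
          push_cast
          ring
        rwa [h2] at h1
      have g5 := g1.sub gmu
      have g6 := g2.sub gmu
      have := ((ge.cmul 7 (g3.add g4)).sub (ge.cmul 12 (ge.zpow (g5.add g6)))).sub
        (ge.cmul 9 (ge.zpow (g5.sub g6)))
      unfold ex
      simpa using this
    · -- `Y` has a zero of order four
      obtain ⟨s1, s2, s3⟩ := QQ_swap h.du
      have h' : Loc v D 0 0 Y X := by
        refine ⟨h.dord, h.dex, h.c0, h.y0, h.x0, ?_, ?_, ?_, ?_⟩
        · rw [add_comm]; exact h.u0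
        · rw [add_comm, h.du]; ring
        · rw [s3]; exact neg_ne_zero.2 h.g0
        · rcases h.alt with h1 | ⟨h1, h2, h3, h4⟩
          · exact Or.inl h1
          · right
            refine ⟨h1, ?_, h4, h3⟩
            rw [add_comm]; exact h2
      have := main_case h' (by rw [s1]; exact hQ0) hY hX hD (by rw [s2]; exact hl)
      rw [ex_swap, s2, s3, neg_neg] at this
      exact this
  · have hY' : v.ord Y = 0 := by
      rcases hXY with h1 | h1
      · omega
      · exact h1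
    exact main_case h hQ0 hX hY' hD hl

end

end Pool.Agent.H33.FQ.EGD
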