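import Pool.Agent.H33.FQ.Pl

/-!
# FQ module FIL: local form of the final inequality
-/

set_option autoImplicit false

namespace Pool.Agent.H33.FQ.FIL

open SC Pool.Agent.H27.LV Pool.Agent.H30.FQ Pool.Agent.H33.FQ

theorem t_fil : T_FIL := by
  intro k K _ _ _ _ v D c X Y h
  have hc := h.c0
  have hX : ge v (v.ord X) X := ge_of_ord v
  have hY : ge v (v.ord Y) Y := ge_of_ord v
  have hDX := dge1 h.dord hX
  have hDY := dge1 h.dord hY
  have hDDX := dge1 h.dord hDX
  have hDDY := dge1 h.dord hDY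
  obtain ⟨e1, e2⟩ := gg_eq h.du
  have g1 : ge v (v.ord X - 2 * c) (gg D X) := by
    unfold gg
    exact (hDDX.mono (by omega)).sub (hDX.mono (by omega))
  have e3 : gg D X = D Y - D (D Y) := by rw [e1]; ring
  have g2 : ge v (v.ord Y - 2 * c) (gg D X) := by
    rw [e3]
    exact (hDY.mono (by omega)).sub (hDDY.mono (by omega))
  have e4 : gg D X = X * (D Y - D (D Y)) - Y * (D X - D (D X)) + (D X * D (D Y) - D (D X) * D Y) := by
    rw [e1, e2]
    linear_combination (gg D X) * h.du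
  have g3 : ge v (v.ord X + v.ord Y - 3 * c) (gg D X) := by
    rw [e4]
    refine ((((hX.mul ((hDY.mono ?_).sub hDDY)).mono ?_).sub
      ((hY.mul ((hDX.mono ?_).sub hDDX)).mono ?_))).add
      (((hDX.mul hDDY).mono ?_).sub ((hDDX.mul hDY).mono ?_)) <;> omega
  have o1 := g1.resolve_left h.g0
  have o2 := g2.resolve_left h.g0
  have o3 := g3.resolve_left h.g0
  obtain ⟨_, hQ⟩ := ordQ (v := v) h.x0 h.y0 h.g0
  have hp : poleOrder v ![X, Y] = max (-(v.ord X)).toNat (-(v.ord Y)).toNat := by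
    unfold poleOrder
    simp [Fin.univ_succ]
  rw [hQ, hp]
  omega

end Pool.Agent.H33.FQ.FIL
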