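import Pool.Agent.H33.FQ.Pl

/-!
# FQ module QBD: the zeros of `X` and `Y` outside `S`
-/

set_option autoImplicit false

namespace Pool.Agent.H33.FQ.QBD

open SC Pool.Agent.H27.LV Pool.Agent.H30.FQ Pool.Agent.H33.FQ

theorem t_qbd : T_QBD := by
  intro k K _ _ _ _ v D c w X Y h hw
  have hc := h.c0
  have hX : ge v (v.ord X) X := ge_of_ord v
  have hY : ge v (v.ord Y) Y := ge_of_ord v
  have hDX := dge0 h.dord hX
  have hDY := dge0 h.dord hY
  have hDDX := dge0 h.dord hDX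
  have hDDY := dge0 h.dord hDY
  obtain ⟨e1, e2⟩ := gg_eq h.du
  have g1 : ge v (v.ord X - 2 - 2 * c) (gg D X) := by
    unfold gg
    exact (hDDX.mono (by omega)).sub (hDX.mono (by omega))
  have e3 : gg D X = D Y - D (D Y) := by rw [e1]; ring
  have g2 : ge v (v.ord Y - 2 - 2 * c) (gg D X) := by
    rw [e3]
    exact (hDY.mono (by omega)).sub (hDDY.mono (by omega))
  have o1 := g1.resolve_left h.g0
  have o2 := g2.resolve_left h.g0
  obtain ⟨_, hQ⟩ := ordQ (v := v) h.x0 h.y0 h.g0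
  have hu : min (v.ord X) (v.ord Y) - 1 - c ≤ v.ord (X + Y - 1) := by
    have h1 : ge v (min (v.ord X) (v.ord Y) - 1 - c) (X + Y - 1) := by
      rw [← h.du]
      exact (hDX.mono (by omega)).add (hDY.mono (by omega))
    exact h1.resolve_left h.u0
  have hab := abs_nonneg (v.ord (QQ D X Y))
  have hab' := le_abs_self (v.ord (QQ D X Y))
  have hab2 : |v.ord (QQ D X Y)| = v.ord (QQ D X Y) ∨ |v.ord (QQ D X Y)| = -v.ord (QQ D X Y) :=
    abs_choice _
  obtain ⟨z, hz⟩ : ∃ z, z = |v.ord (QQ D X Y)| := ⟨_, rfl⟩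
  rw [← hz] at hw hab hab' hab2
  rcases h.alt with h1 | ⟨_, h2, h3, h4⟩
  · omega
  · rcases h3 with h3 | h3 <;> rcases h4 with h4 | h4 <;> omega

end Pool.Agent.H33.FQ.QBD
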