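import Pool.Agent.H30.FQ.Targets

/-!
# FQ modules: auxiliary lemmas on places
-/

set_option autoImplicit false

namespace Pool.Agent.H33.FQ

open SC Pool.Agent.H27.LV Pool.Agent.H30.FQ

section

variable {k K : Type} [Field k] [Field K] [Algebra k K] {v : DV k K}

lemma ge.ord_le {t : ℤ} {x : K} (h : ge v t x) (hx : x ≠ 0) : t ≤ v.ord x := h.resolve_left hx

lemma geNat (v : DV k K) (n : ℕ) : ge v 0 (n : K) := Or.inr (v.ord_natCast_le n)

/-- the derivation at the places with `s = 1` -/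
lemma dge1 {D : Derivation k K K} {c t : ℤ} (h : DOrd v D (1 - c)) {z : K} (hz : ge v t z) :
    ge v (t - c) (D z) := by
  by_cases h0 : z = 0
  · left; rw [h0, map_zero]
  · exact (h.2 z h0).mono (by have := hz.resolve_left h0; omega)

/-- the derivation at the places with `s = 0` -/
lemma dge0 {D : Derivation k K K} {c t : ℤ} (h : DOrd v D (0 - c)) {z : K} (hz : ge v t z) :
    ge v (t - 1 - c) (D z) := by
  by_cases h0 : z = 0
  · left; rw [h0, map_zero]
  · exact (h.2 z h0).mono (by have := hz.resolve_left h0; omega)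

lemma dge00 {D : Derivation k K K} {c : ℤ} (h : DOrd v D (0 - c)) {z : K} (hz : ge v 0 z) :
    ge v (-c) (D z) := by
  by_cases h0 : z = 0
  · left; rw [h0, map_zero]
  · exact (h.1 z (hz.resolve_left h0)).mono (by omega)

lemma ord16 [CharZero k] (v : DV k K) : (16 : K) ≠ 0 ∧ v.ord (16 : K) = 0 := by
  have hK : CharZero K := charZero_of_injective_algebraMap (algebraMap k K).injective
  have h : algebraMap k K (16 : k) = (16 : K) := map_ofNat (algebraMap k K) 16
  exact ⟨by norm_num, by rw [← h, v.ord_base]⟩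

/-- `G` for `X` and for `Y` -/
lemma gg_eq {D : Derivation k K K} {X Y : K} (h : D X + D Y = X + Y - 1) :
    D (D Y) = D Y - gg D X ∧ D (D X) = D X + gg D X := by
  have h1 : D (D X) + D (D Y) = D X + D Y := by
    rw [← map_add, h, map_sub, map_add, D.map_one_eq_zero, sub_zero]
    exact h
  refine ⟨?_, ?_⟩
  · unfold gg
    linear_combination h1
  · unfold gg
    ring

/-- the order of `Q` -/
lemma ordQ [CharZero k] {D : Derivation k K K} {X Y : K} (hX : X ≠ 0) (hY : Y ≠ 0)
    (hg : gg D X ≠ 0) :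
    QQ D X Y ≠ 0 ∧ v.ord (QQ D X Y) = 2 * v.ord (gg D X) - v.ord X - v.ord Y := by
  obtain ⟨h16, h16'⟩ := ord16 v
  have h1 : (16 * X * Y : K) ≠ 0 := mul_ne_zero (mul_ne_zero h16 hX) hY
  unfold QQ
  refine ⟨div_ne_zero (pow_ne_zero _ hg) h1, ?_⟩
  rw [v.ord_div (pow_ne_zero _ hg) h1, v.ord_pow, v.ord_mul' (mul_ne_zero h16 hX) hY,
    v.ord_mul' h16 hX, h16']
  push_cast
  ring

end

end Pool.Agent.H33.FQ
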